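import Pool.Agent.TH869.EVF.Wf
import Pool.Agent.Y159.TG.Stm

/-!
Project TG: square values of `k² f + m` modulo `p`.
-/

set_option autoImplicit false

namespace Pool.Agent.Y759.TG

open Polynomial Finset Pool.Agent.Y159.TG

/-- completing the square -/
theorem csq (f : ℚ[X]) (M : ℕ) (a : ℚ) (ha : a ≠ 0) (hfa : f.coeff (2 * M) = a)
    (hf : ∀ i, 2 * M < i → f.coeff i = 0) :
    ∀ j ≤ M, ∃ h : ℚ[X], h.coeff M = 1 ∧ (∀ i, M < i → h.coeff i = 0) ∧
      ∀ i, 2 * M ≤ i + j → (f - C a * h ^ 2).coeff i = 0 := by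
  intro j
  induction j with
  | zero =>
    intro _
    refine ⟨X ^ M, by rw [coeff_X_pow, if_pos rfl], fun i hi => ?_, fun i hi => ?_⟩
    · rw [coeff_X_pow, if_neg (by omega)]
    · rw [← pow_mul, mul_comm M 2, coeff_sub, coeff_C_mul, coeff_X_pow]
      rcases eq_or_lt_of_le (show 2 * M ≤ i by omega) with h1 | h1
      · rw [if_pos h1.symm, ← h1, hfa]
        ring
      · rw [if_neg (by omega), hf i h1]
        ring
  | succ j ih =>
    intro hj
    obtain ⟨h, h1, h2, h3⟩ := ih (by omega)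
    set e : ℚ := (f - C a * h ^ 2).coeff (2 * M - j - 1) with he
    set q : ℚ := e / (2 * a) with hq
    have heq : e = 2 * a * q := by
      rw [hq]
      field_simp
    have hid : f - C a * (h + C q * X ^ (M - j - 1)) ^ 2 =
        (f - C a * h ^ 2) - C e * (X ^ (M - j - 1) * h) -
          C (a * q ^ 2) * X ^ (2 * (M - j - 1)) := by
      rw [heq, C_mul, C_mul, C_mul, C_pow, pow_mul' X 2]
      have : (C 2 : ℚ[X]) = 2 := rfl
      rw [this]
      ring
    refine ⟨h + C q * X ^ (M - j - 1), ?_, fun i hi => ?_, fun i hi => ?_⟩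
    · rw [coeff_add, coeff_C_mul, coeff_X_pow, if_neg (by omega), h1, mul_zero, add_zero]
    · rw [coeff_add, coeff_C_mul, coeff_X_pow, if_neg (by omega), h2 i hi, mul_zero, add_zero]
    · rw [hid, coeff_sub, coeff_sub, coeff_C_mul, coeff_C_mul, coeff_X_pow, coeff_X_pow_mul',
        if_pos (by omega), if_neg (by omega), mul_zero, sub_zero]
      rcases eq_or_lt_of_le (show 2 * M - j - 1 ≤ i by omega) with h4 | h4
      · rw [← h4, ← he, show 2 * M - j - 1 - (M - j - 1) = M by omega, h1]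
        ring
      · rw [h3 i (by omega), h2 _ (by omega)]
        ring

theorem csq_int (f : ℤ[X]) (M : ℕ) (hd : f.natDegree = 2 * M) (hf0 : f ≠ 0) :
    ∃ (n0 : ℤ) (H : ℤ[X]), n0 ≠ 0 ∧ H.coeff M = n0 ∧ (∀ i, M < i → H.coeff i = 0) ∧
      ∀ i, M ≤ i → (C (n0 ^ 2) * f - C f.leadingCoeff * H ^ 2).coeff i = 0 := by
  have hlc : f.leadingCoeff ≠ 0 := leadingCoeff_ne_zero.2 hf0
  obtain ⟨h, h1, h2, h3⟩ := csq (f.map (Int.castRingHom ℚ)) M (f.leadingCoeff : ℚ)
    (by exact_mod_cast hlc) (by rw [coeff_map, ← hd, coeff_natDegree]; rfl)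
    (fun i hi => by
      rw [coeff_map, coeff_eq_zero_of_natDegree_lt (by omega), map_zero]) M le_rfl
  obtain ⟨d, H, hd0, hH⟩ := Pool.Agent.TH869.EVF.exists_int h
  have hc : ∀ i, ((H.coeff i : ℤ) : ℚ) = d * h.coeff i := by
    intro i
    have h4 := congrArg (fun P : ℚ[X] => P.coeff i) hH
    simp only [coeff_map, coeff_C_mul] at h4
    exact h4
  refine ⟨d, H, hd0, ?_, fun i hi => ?_, fun i hi => ?_⟩
  · have h4 := hc M
    rw [h1, mul_one] at h4
    exact_mod_cast h4
  · have h4 := hc i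
    rw [h2 i hi, mul_zero] at h4
    exact_mod_cast h4
  · have h5 : (C (d ^ 2) * f - C f.leadingCoeff * H ^ 2).map (Int.castRingHom ℚ) =
        C ((d : ℚ) ^ 2) * (f.map (Int.castRingHom ℚ) - C (f.leadingCoeff : ℚ) * h ^ 2) := by
      rw [Polynomial.map_sub, Polynomial.map_mul, Polynomial.map_mul, Polynomial.map_pow, hH,
        map_C, map_C, map_pow, eq_intCast, eq_intCast, mul_pow, C_pow]
      ring
    have h6 := congrArg (fun P : ℚ[X] => P.coeff i) h5
    simp only [coeff_map, coeff_C_mul] at h6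
    rw [h3 i (by omega), mul_zero, eq_intCast] at h6
    exact_mod_cast h6

/-- the polynomials `k² f + m` are not a constant times a square modulo `p` -/
theorem not_sq (f : ℤ[X]) (hf : ∀ (c : ℚ) (g : ℚ[X]), f.map (Int.castRingHom ℚ) ≠ C c * g ^ 2) :
    ∃ (P0 : ℕ) (n ρ : ℤ), n ≠ 0 ∧ ρ ≠ 0 ∧ ∀ p : ℕ, p.Prime → P0 < p → ∀ k m : ℤ,
      ¬ (p : ℤ) ∣ k → ¬ (p : ℤ) ∣ n * m + k ^ 2 * ρ → ∀ (c : ZMod p) (h : (ZMod p)[X]),
        C ((k : ZMod p) ^ 2) * f.map (Int.castRingHom (ZMod p)) + C (m : ZMod p) ≠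
          C c * h ^ 2 := by
  have hf0 : f ≠ 0 := by
    rintro rfl
    exact hf 0 0 (by simp)
  have hlc : f.leadingCoeff ≠ 0 := leadingCoeff_ne_zero.2 hf0
  have hdeg : 1 ≤ f.natDegree := by
    by_contra hcon
    have h1 : f = C (f.coeff 0) := eq_C_of_natDegree_eq_zero (by omega)
    apply hf (f.coeff 0 : ℚ) 1
    rw [h1]
    simp
  -- a nonzero integer is nonzero modulo large primes
  have hcast : ∀ (p : ℕ) (z : ℤ), z ≠ 0 → z.natAbs < p → (z : ZMod p) ≠ 0 := by
    intro p z hz hp h1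
    rw [ZMod.intCast_zmod_eq_zero_iff_dvd] at h1
    have h2 := Nat.le_of_dvd (Int.natAbs_pos.mpr hz) (Int.natCast_dvd.mp h1)
    omega
  have hkc : ∀ (p : ℕ) (k : ℤ), ¬ (p : ℤ) ∣ k → (k : ZMod p) ≠ 0 := by
    intro p k hk h1
    rw [ZMod.intCast_zmod_eq_zero_iff_dvd] at h1
    exact hk h1
  -- the degree of `k² f + m`
  have hgd : ∀ p : ℕ, p.Prime → f.leadingCoeff.natAbs < p → ∀ k m : ℤ, ¬ (p : ℤ) ∣ k →
      (C ((k : ZMod p) ^ 2) * f.map (Int.castRingHom (ZMod p)) + C (m : ZMod p)).natDegree =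
        f.natDegree ∧
      (C ((k : ZMod p) ^ 2) * f.map (Int.castRingHom (ZMod p)) + C (m : ZMod p)).coeff
        f.natDegree = (k : ZMod p) ^ 2 * (f.leadingCoeff : ZMod p) := by
    intro p hp hpp k m hk
    have : Fact p.Prime := ⟨hp⟩
    have h1 : (C ((k : ZMod p) ^ 2) * f.map (Int.castRingHom (ZMod p)) +
        C (m : ZMod p)).coeff f.natDegree = (k : ZMod p) ^ 2 * (f.leadingCoeff : ZMod p) := by
      rw [coeff_add, coeff_C_mul, coeff_map, coeff_C, if_neg (by omega), add_zero, coeff_natDegree,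
        eq_intCast]
    refine ⟨le_antisymm ?_ (le_natDegree_of_ne_zero ?_), h1⟩
    · refine natDegree_add_le_of_degree_le ?_ ?_
      · exact (natDegree_C_mul_le _ _).trans natDegree_map_le
      · rw [natDegree_C]
        exact Nat.zero_le _
    · rw [h1]
      exact mul_ne_zero (pow_ne_zero 2 (hkc p k hk)) (hcast p _ hlc hpp)
  rcases Nat.even_or_odd f.natDegree with heven | hodd
  · obtain ⟨M, hM⟩ := heven
    have hM2 : f.natDegree = 2 * M := by omega
    have hM1 : 1 ≤ M := by omega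
    obtain ⟨n0, H, hn0, hHM, hHi, hρ⟩ := csq_int f M hM2 hf0
    set ρ1 : ℤ[X] := C (n0 ^ 2) * f - C f.leadingCoeff * H ^ 2 with hρ1
    -- the main argument
    have hmain : ∀ p : ℕ, p.Prime → 2 + f.leadingCoeff.natAbs + n0.natAbs < p → ∀ k m : ℤ,
        ¬ (p : ℤ) ∣ k → ∀ (c : ZMod p) (h : (ZMod p)[X]),
        C ((k : ZMod p) ^ 2) * f.map (Int.castRingHom (ZMod p)) + C (m : ZMod p) = C c * h ^ 2 →
        C ((k : ZMod p) ^ 2) * ρ1.map (Int.castRingHom (ZMod p)) +
          C ((n0 : ZMod p) ^ 2 * m) = 0 := by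
      intro p hp hpp k m hk c h hg
      have : Fact p.Prime := ⟨hp⟩
      obtain ⟨hg1, hg2⟩ := hgd p hp (by omega) k m hk
      have hk0 := hkc p k hk
      have ha0 := hcast p _ hlc (by omega)
      have hn00 := hcast p _ hn0 (by omega)
      have h20 : (2 : ZMod p) ≠ 0 := by
        have := hcast p 2 (by norm_num) (by norm_num; omega)
        exact_mod_cast this
      set φ := Int.castRingHom (ZMod p) with hφ
      have hka : (k : ZMod p) ^ 2 * (f.leadingCoeff : ZMod p) ≠ 0 :=
        mul_ne_zero (pow_ne_zero 2 hk0) ha0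
      have hc0 : c ≠ 0 := by
        rintro rfl
        rw [hg, C_0, zero_mul, coeff_zero] at hg2
        exact hka hg2.symm
      have hh0 : h ≠ 0 := by
        rintro rfl
        rw [hg, zero_pow (by norm_num), mul_zero, coeff_zero] at hg2
        exact hka hg2.symm
      have hdh : h.natDegree = M := by
        rw [hg, natDegree_C_mul hc0, natDegree_pow, hM2] at hg1
        omega
      set b := h.leadingCoeff with hb
      have hb0 : b ≠ 0 := leadingCoeff_ne_zero.2 hh0
      have hlead : (k : ZMod p) ^ 2 * (f.leadingCoeff : ZMod p) = c * b ^ 2 := by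
        rw [← hg2, hg, coeff_C_mul]
        congr 1
        have h1 : (h ^ 2).natDegree = f.natDegree := by
          rw [natDegree_pow, hdh, hM2]
        rw [← h1, coeff_natDegree, leadingCoeff_pow]
      set h1 : (ZMod p)[X] := C ((n0 : ZMod p) / b) * h with hh1
      set Hb := H.map φ with hHb
      set R : (ZMod p)[X] := C ((k : ZMod p) ^ 2) * ρ1.map φ + C ((n0 : ZMod p) ^ 2 * m) with hR
      have hρm : ρ1.map φ = C ((n0 : ZMod p) ^ 2) * f.map φ -
          C (f.leadingCoeff : ZMod p) * Hb ^ 2 := by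
        rw [hρ1, Polynomial.map_sub, Polynomial.map_mul, Polynomial.map_mul, Polynomial.map_pow,
          map_C, map_C, map_pow, hφ, eq_intCast, eq_intCast]
      have hfac : C ((k : ZMod p) ^ 2 * (f.leadingCoeff : ZMod p)) *
          ((h1 - Hb) * (h1 + Hb)) = R := by
        have e1 : C ((k : ZMod p) ^ 2 * (f.leadingCoeff : ZMod p)) * h1 ^ 2 =
            C ((n0 : ZMod p) ^ 2) * (C c * h ^ 2) := by
          rw [hh1, mul_pow, ← C_pow, ← mul_assoc, ← C_mul, ← mul_assoc, ← C_mul]
          congr 2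
          rw [hlead]
          field_simp
        rw [← hg] at e1
        have e2 : C ((k : ZMod p) ^ 2 * (f.leadingCoeff : ZMod p)) * ((h1 - Hb) * (h1 + Hb)) =
            C ((k : ZMod p) ^ 2 * (f.leadingCoeff : ZMod p)) * h1 ^ 2 -
              C ((k : ZMod p) ^ 2 * (f.leadingCoeff : ZMod p)) * Hb ^ 2 := by
          ring
        rw [e2, e1, hR, hρm]
        simp only [C_mul, C_pow]
        ring
      have hRc : ∀ i, M ≤ i → R.coeff i = 0 := by
        intro i hi
        rw [hR, coeff_add, coeff_C_mul, coeff_map, hρ i hi, map_zero, mul_zero, zero_add, coeff_C,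
          if_neg (by omega)]
      by_contra hne
      have hR0 : R ≠ 0 := hne
      have hL0 : (h1 - Hb) * (h1 + Hb) ≠ 0 := by
        intro h0
        rw [h0, mul_zero] at hfac
        exact hR0 hfac.symm
      have hd1 : M ≤ (h1 + Hb).natDegree := by
        apply le_natDegree_of_ne_zero
        rw [coeff_add, hh1, coeff_C_mul, hHb, coeff_map, hHM, ← hdh, coeff_natDegree, ← hb, hφ,
          eq_intCast]
        have e3 : (n0 : ZMod p) / b * b + (n0 : ZMod p) = 2 * n0 := by
          field_simp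
          ring
        rw [e3]
        exact mul_ne_zero h20 hn00
      have hd2 : R.natDegree = (h1 - Hb).natDegree + (h1 + Hb).natDegree := by
        rw [← hfac, natDegree_C_mul hka, natDegree_mul (left_ne_zero_of_mul hL0)
          (right_ne_zero_of_mul hL0)]
      have hd3 := hRc R.natDegree (by omega)
      rw [coeff_natDegree] at hd3
      exact hR0 (leadingCoeff_eq_zero.1 hd3)
    by_cases hconst : ∃ j, 1 ≤ j ∧ ρ1.coeff j ≠ 0
    · obtain ⟨j, hj, hj0⟩ := hconst
      refine ⟨2 + f.leadingCoeff.natAbs + n0.natAbs + (ρ1.coeff j).natAbs, 1, 1, one_ne_zero,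
        one_ne_zero, ?_⟩
      intro p hp hpp k m hk _ c h hg
      have : Fact p.Prime := ⟨hp⟩
      have h1 := hmain p hp (by omega) k m hk c h hg
      have h2 := congrArg (fun P : (ZMod p)[X] => P.coeff j) h1
      simp only [coeff_add, coeff_C_mul, coeff_map, coeff_zero] at h2
      rw [coeff_C, if_neg (by omega), add_zero, eq_intCast] at h2
      exact mul_ne_zero (pow_ne_zero 2 (hkc p k hk)) (hcast p _ hj0 (by omega)) h2
    · push Not at hconst
      have hρ0 : ρ1.coeff 0 ≠ 0 := by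
        intro h0
        have h1 : ρ1 = 0 := by
          ext i
          rw [coeff_zero]
          rcases Nat.eq_zero_or_pos i with h2 | h2
          · rw [h2, h0]
          · exact hconst i h2
        have h2 := congrArg (Polynomial.map (Int.castRingHom ℚ)) h1
        rw [hρ1, Polynomial.map_sub, Polynomial.map_mul, Polynomial.map_mul, Polynomial.map_pow,
          map_C, map_C, map_pow, eq_intCast, eq_intCast, Polynomial.map_zero, sub_eq_zero] at h2
        have h3 : (n0 : ℚ) ≠ 0 := by exact_mod_cast hn0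
        apply hf ((f.leadingCoeff : ℚ) / (n0 : ℚ) ^ 2) (H.map (Int.castRingHom ℚ))
        have h4 : C (((n0 : ℚ) ^ 2)⁻¹) * (C ((n0 : ℚ) ^ 2) * f.map (Int.castRingHom ℚ)) =
            f.map (Int.castRingHom ℚ) := by
          rw [← mul_assoc, ← C_mul, inv_mul_cancel₀ (pow_ne_zero 2 h3), C_1, one_mul]
        rw [← h4, h2, ← mul_assoc, ← C_mul]
        congr 2
        field_simp
      refine ⟨2 + f.leadingCoeff.natAbs + n0.natAbs, n0 ^ 2, ρ1.coeff 0, pow_ne_zero 2 hn0, hρ0, ?_⟩
      intro p hp hpp k m hk hnd c h hg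
      have h1 := hmain p hp hpp k m hk c h hg
      have h2 := congrArg (fun P : (ZMod p)[X] => P.coeff 0) h1
      simp only [coeff_add, coeff_C_mul, coeff_map, coeff_zero] at h2
      rw [coeff_C_zero, eq_intCast] at h2
      apply hnd
      rw [← ZMod.intCast_zmod_eq_zero_iff_dvd]
      push_cast
      linear_combination h2
  · refine ⟨2 + f.leadingCoeff.natAbs, 1, 1, one_ne_zero, one_ne_zero, ?_⟩
    intro p hp hpp k m hk _ c h hg
    have : Fact p.Prime := ⟨hp⟩
    obtain ⟨hg1, hg2⟩ := hgd p hp (by omega) k m hk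
    have hka : (k : ZMod p) ^ 2 * (f.leadingCoeff : ZMod p) ≠ 0 :=
      mul_ne_zero (pow_ne_zero 2 (hkc p k hk)) (hcast p _ hlc (by omega))
    have hc0 : c ≠ 0 := by
      rintro rfl
      rw [hg, C_0, zero_mul, coeff_zero] at hg2
      exact hka hg2.symm
    rw [hg, natDegree_C_mul hc0, natDegree_pow] at hg1
    obtain ⟨z, hz⟩ := hodd
    omega

/-- the number of square values -/
theorem count_sq (p : ℕ) [Fact p.Prime] (hp2 : p ≠ 2) (g : (ZMod p)[X]) (hg : g ≠ 0)
    (A : Finset (ZMod p)) (hA : ∀ x ∈ A, IsSquare (g.eval x)) :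
    (A.card : ℝ) ≤ (p : ℝ) / 2 +
      |((∑ x : ZMod p, quadraticChar (ZMod p) (g.eval x) : ℤ) : ℝ)| / 2 + g.natDegree / 2 := by
  classical
  have hF : ringChar (ZMod p) ≠ 2 := by
    rw [ZMod.ringChar_zmod_n]
    exact hp2
  have h1 : ∀ x : ZMod p, (0 : ℤ) ≤ 1 + quadraticChar (ZMod p) (g.eval x) := by
    intro x
    by_cases h : g.eval x = 0
    · rw [h, MulChar.map_zero]
      norm_num
    · rcases quadraticChar_dichotomy h with h2 | h2 <;> rw [h2] <;> norm_num
  have h2 : ∀ x ∈ A, (2 : ℤ) ≤ 1 + quadraticChar (ZMod p) (g.eval x) +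
      (if g.eval x = 0 then 1 else 0) := by
    intro x hx
    by_cases h : g.eval x = 0
    · rw [if_pos h, h, MulChar.map_zero]
      norm_num
    · rw [if_neg h, (quadraticChar_one_iff_isSquare h).2 (hA x hx)]
      norm_num
  have h3 : 2 * (A.card : ℤ) ≤ ∑ x : ZMod p, (1 + quadraticChar (ZMod p) (g.eval x) +
      (if g.eval x = 0 then 1 else 0)) := by
    calc 2 * (A.card : ℤ) = ∑ x ∈ A, (2 : ℤ) := by
          rw [Finset.sum_const, nsmul_eq_mul, mul_comm]
      _ ≤ ∑ x ∈ A, (1 + quadraticChar (ZMod p) (g.eval x) + (if g.eval x = 0 then 1 else 0)) :=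
          Finset.sum_le_sum h2
      _ ≤ _ := by
          refine Finset.sum_le_sum_of_subset_of_nonneg (Finset.subset_univ A) fun x _ _ => ?_
          have := h1 x
          split_ifs <;> omega
  have h4 : ∑ x : ZMod p, (if g.eval x = 0 then (1 : ℤ) else 0) ≤ g.natDegree := by
    rw [← Finset.sum_filter, Finset.sum_const, nsmul_eq_mul, mul_one]
    have h5 : (univ.filter fun x : ZMod p => g.eval x = 0) ⊆ g.roots.toFinset := by
      intro x hx
      rw [Finset.mem_filter] at hx
      rw [Multiset.mem_toFinset, mem_roots hg]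
      exact hx.2
    exact_mod_cast (Finset.card_le_card h5).trans
      ((Multiset.toFinset_card_le _).trans (card_roots' g))
  rw [Finset.sum_add_distrib, Finset.sum_add_distrib, Finset.sum_const, Finset.card_univ,
    ZMod.card, nsmul_eq_mul, mul_one] at h3
  have h6 : (2 * (A.card : ℤ) : ℤ) ≤ (p : ℤ) +
      (∑ x : ZMod p, quadraticChar (ZMod p) (g.eval x)) + g.natDegree := by
    linarith
  have h7 : (2 * (A.card : ℝ)) ≤ (p : ℝ) +
      ((∑ x : ZMod p, quadraticChar (ZMod p) (g.eval x) : ℤ) : ℝ) + (g.natDegree : ℝ) := by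
    exact_mod_cast h6
  have h8 := le_abs_self ((∑ x : ZMod p, quadraticChar (ZMod p) (g.eval x) : ℤ) : ℝ)
  linarith

/-- TG-RES -/
theorem res : TaskRes := by
  intro f hf
  obtain ⟨P0, n, ρ, hn, hρ, hmain⟩ := not_sq f hf
  obtain ⟨K, hK0, hK⟩ := Pool.Agent.H471R4.BW.wel (Pool.Agent.H471R4.BW.crd
    (Pool.Agent.H471R4.BW.cor (Pool.Agent.H471R4.BW.nv1 Pool.Agent.H471R4.BW.nv0)))
    2 f.natDegree Nat.prime_two
  refine ⟨K + f.natDegree, max P0 2, n, ρ, by positivity, hn, hρ, ?_⟩
  intro p hp hpp k m hk hnd A hA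
  have hpp0 : P0 < p := lt_of_le_of_lt (le_max_left _ _) hpp
  have hp2 : 2 < p := lt_of_le_of_lt (le_max_right _ _) hpp
  have : Fact p.Prime := ⟨hp⟩
  have hodd : 2 ∣ p - 1 := by
    have := hp.eq_two_or_odd
    omega
  set χ : DirichletCharacter ℂ p := (quadraticChar (ZMod p)).ringHomComp (Int.castRingHom ℂ) with hχ
  have hF : ringChar (ZMod p) ≠ 2 := by
    rw [ZMod.ringChar_zmod_n]
    omega
  have h1 : χ ≠ 1 := by
    rw [hχ, MulChar.ringHomComp_ne_one_iff (RingHom.injective_int _)]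
    exact quadraticChar_ne_one hF
  have h2 : χ ^ 2 = 1 := ((quadraticChar_isQuadratic (ZMod p)).comp (Int.castRingHom ℂ)).sq_eq_one
  set g : (ZMod p)[X] := C ((k : ZMod p) ^ 2) * f.map (Int.castRingHom (ZMod p)) +
    C (m : ZMod p) with hg
  have hns := hmain p hp hpp0 k m hk hnd
  have h3 : g.natDegree ≤ f.natDegree := by
    refine natDegree_add_le_of_degree_le ?_ ?_
    · exact (natDegree_C_mul_le _ _).trans natDegree_map_le
    · rw [natDegree_C]
      exact Nat.zero_le _
  have h4 : g ≠ 0 := by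
    intro h
    apply hns 0 0
    rw [← hg, h]
    simp
  have h5 := hK p hodd χ h1 h2 g h3 h4 (fun c h => hns c h)
  have h6 : ∑ x : ZMod p, χ (g.eval x) =
      (((∑ x : ZMod p, quadraticChar (ZMod p) (g.eval x) : ℤ) : ℝ) : ℂ) := by
    push_cast
    rfl
  rw [h6, Complex.norm_real, Real.norm_eq_abs] at h5
  have h7 := count_sq p (by omega) g h4 A (fun x hx => by
    have h8 := hA x hx
    rw [hg, eval_add, eval_mul, eval_C, eval_C]
    exact h8)
  have h9 : (g.natDegree : ℝ) ≤ f.natDegree := by exact_mod_cast h3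
  have h10 : (1 : ℝ) ≤ √(p : ℝ) := by
    rw [Real.one_le_sqrt]
    exact_mod_cast hp.one_lt.le
  have h11 : (0 : ℝ) ≤ f.natDegree := Nat.cast_nonneg _
  have h12 : 0 ≤ K * √(p : ℝ) := by positivity
  have h13 : (f.natDegree : ℝ) ≤ f.natDegree * √(p : ℝ) := le_mul_of_one_le_right h11 h10
  rw [add_mul]
  linarith

end Pool.Agent.Y759.TG
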